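import Mathlib

/-!
# Moser's covering problem for rectangles of total area 3

Every finite or countably infinite family of axis-parallel rectangles `[0, w i] × [0, h i]` with
largest side length `1` and total area `3` (or more) covers the unit square by translates.

Method: sort by height and fill rows.  A complete row consists of rectangles of total width less
than one, of height at most `M`, followed by one rectangle of height `m`, the height of the row; so
its area is at most `M + m`, and the remaining rectangles have height at most `m`.  Summing up, a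
family of sides at most one which does not fill the height `H` in this way has area less than
`1 + 2 H`.  A rectangle with a side equal to one is used as a row (or column) of its own; this gives
some room, so that finitely many rectangles suffice.
-/

set_option autoImplicit false

namespace Pool.Agent.Results.MP_6800d9_co.AreaThreeCovers

open Set

variable {ι : Type*}

/-- Intervals of lengths `w i`, `i ∈ s`, cover an interval of length `∑ w i`. -/
theorem line (w : ι → ℝ) (s : Finset ι) (hs : s.Nonempty) :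
    ∃ x : ι → ℝ, ∀ t : ℝ, 0 ≤ t → t ≤ ∑ i ∈ s, w i → ∃ i ∈ s, x i ≤ t ∧ t ≤ x i + w i := by
  classical
  induction hs using Finset.Nonempty.cons_induction with
  | singleton a =>
    refine ⟨fun _ => 0, fun t h0 h1 => ⟨a, by simp, h0, ?_⟩⟩
    simpa using h1
  | cons a s ha hs ih =>
    obtain ⟨x, hx⟩ := ih
    refine ⟨fun i => if i = a then ∑ i ∈ s, w i else x i, fun t h0 h1 => ?_⟩
    by_cases ht : t ≤ ∑ i ∈ s, w i
    · obtain ⟨i, hi, h2⟩ := hx t h0 ht
      have hia : i ≠ a := fun h => ha (h ▸ hi)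
      exact ⟨i, Finset.mem_cons_of_mem hi, by simpa [hia] using h2⟩
    · refine ⟨a, Finset.mem_cons_self a s, ?_⟩
      rw [Finset.sum_cons] at h1
      push Not at ht
      simp only [if_true]
      exact ⟨ht.le, by linarith⟩

/-- The first row: rectangles of total width less than one, and one more. -/
theorem first_row (w h : ι → ℝ) (s : Finset ι) (hs : 1 ≤ ∑ i ∈ s, w i) [DecidableEq ι] :
    ∃ T ⊆ s, ∃ a ∈ s, a ∉ T ∧ ∑ i ∈ T, w i < 1 ∧ 1 ≤ ∑ i ∈ insert a T, w i ∧
      (∀ i ∈ T, h a ≤ h i) ∧ ∀ j ∈ s, j ∉ insert a T → h j ≤ h a := by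
  classical
  let P : Finset (Finset ι) := s.powerset.filter fun T =>
    (∑ i ∈ T, w i < 1) ∧ ∀ i ∈ T, ∀ j ∈ s, j ∉ T → h j ≤ h i
  have hP : P.Nonempty := ⟨∅, by simp [P]⟩
  obtain ⟨T, hT, hmax⟩ := P.exists_max_image Finset.card hP
  simp only [P, Finset.mem_filter, Finset.mem_powerset] at hT hmax
  obtain ⟨hTs, hT1, hTu⟩ := hT
  have hne : (s \ T).Nonempty := by
    rw [Finset.sdiff_nonempty]
    intro hsT
    have : s = T := Finset.Subset.antisymm hsT hTs
    rw [← this] at hT1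
    linarith
  obtain ⟨a, ha, hamax⟩ := (s \ T).exists_max_image h hne
  rw [Finset.mem_sdiff] at ha
  refine ⟨T, hTs, a, ha.1, ha.2, hT1, ?_, fun i hi => hTu i hi a ha.1 ha.2, fun j hj hj2 => ?_⟩
  · by_contra hcon
    push Not at hcon
    have h1 := hmax (insert a T) ⟨Finset.insert_subset ha.1 hTs, hcon, ?_⟩
    · rw [Finset.card_insert_of_notMem ha.2] at h1
      omega
    · intro i hi j hj hj2
      rw [Finset.mem_insert, not_or] at hj2
      rcases Finset.mem_insert.1 hi with rfl | hi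
      · exact hamax j (Finset.mem_sdiff.2 ⟨hj, hj2.2⟩)
      · exact hTu i hi j hj hj2.2
  · rw [Finset.mem_insert, not_or] at hj2
    exact hamax j (Finset.mem_sdiff.2 ⟨hj, hj2.2⟩)

/-- The row algorithm. -/
theorem rows (w h : ι → ℝ) (hw : ∀ i, 0 < w i) (hh : ∀ i, 0 < h i) (hw1 : ∀ i, w i ≤ 1) (n : ℕ) :
    ∀ (s : Finset ι), s.card ≤ n → ∀ M H : ℝ, 0 ≤ M → 0 < H → (∀ i ∈ s, h i ≤ M) →
      M + 2 * H ≤ ∑ i ∈ s, w i * h i →
      ∃ v : ι → ℝ × ℝ, ∀ x y : ℝ, 0 ≤ x → x ≤ 1 → 0 ≤ y → y ≤ H →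
        ∃ i ∈ s, ((v i).1 ≤ x ∧ x ≤ (v i).1 + w i) ∧ (v i).2 ≤ y ∧ y ≤ (v i).2 + h i := by
  classical
  induction n with
  | zero =>
    intro s hs M H hM hH _ harea
    have : s = ∅ := Finset.card_eq_zero.1 (Nat.le_zero.1 hs)
    rw [this, Finset.sum_empty] at harea
    linarith
  | succ n ih =>
    intro s hs M H hM hH hsM harea
    have hwid : 1 ≤ ∑ i ∈ s, w i := by
      by_contra hcon
      push Not at hcon
      have h1 : ∑ i ∈ s, w i * h i ≤ ∑ i ∈ s, w i * M :=
        Finset.sum_le_sum fun i hi => mul_le_mul_of_nonneg_left (hsM i hi) (hw i).le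
      rw [← Finset.sum_mul] at h1
      nlinarith
    obtain ⟨T, hTs, a, has, haT, hT1, hT2, hTa, hrest⟩ := first_row w h s hwid
    set m := h a with hm
    have hmM : m ≤ M := hsM a has
    have hsub : insert a T ⊆ s := Finset.insert_subset has hTs
    obtain ⟨x₀, hx₀⟩ := line w (insert a T) (Finset.insert_nonempty a T)
    -- the area of the row
    have hrow : ∑ i ∈ insert a T, w i * h i ≤ M + m := by
      rw [Finset.sum_insert haT]
      have h1 : ∑ i ∈ T, w i * h i ≤ ∑ i ∈ T, w i * M :=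
        Finset.sum_le_sum fun i hi => mul_le_mul_of_nonneg_left (hsM i (hTs hi)) (hw i).le
      rw [← Finset.sum_mul] at h1
      have h2 : w a * h a ≤ m := by
        have := mul_le_mul_of_nonneg_right (hw1 a) (hh a).le
        linarith
      nlinarith
    have hrowcov : ∀ x y : ℝ, 0 ≤ x → x ≤ 1 → 0 ≤ y → y ≤ m →
        ∃ i ∈ insert a T, (x₀ i ≤ x ∧ x ≤ x₀ i + w i) ∧ 0 ≤ y ∧ y ≤ 0 + h i := by
      intro x y hx hx1 hy hym
      obtain ⟨i, hi, h1⟩ := hx₀ x hx (hx1.trans hT2)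
      refine ⟨i, hi, h1, hy, ?_⟩
      rcases Finset.mem_insert.1 hi with rfl | hi
      · linarith
      · linarith [hTa i hi]
    by_cases hHm : H ≤ m
    · refine ⟨fun i => (x₀ i, 0), fun x y hx hx1 hy hyH => ?_⟩
      obtain ⟨i, hi, h1⟩ := hrowcov x y hx hx1 hy (hyH.trans hHm)
      exact ⟨i, hsub hi, h1⟩
    · push Not at hHm
      have hsplit : ∑ i ∈ s \ insert a T, w i * h i + ∑ i ∈ insert a T, w i * h i
          = ∑ i ∈ s, w i * h i := Finset.sum_sdiff hsub
      have hcard : (s \ insert a T).card ≤ n := by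
        have h1 : (s \ insert a T).card < s.card := Finset.card_lt_card
          (Finset.sdiff_ssubset hsub (Finset.insert_nonempty a T))
        omega
      obtain ⟨v, hv⟩ := ih (s \ insert a T) hcard m (H - m) (hh a).le (by linarith)
        (fun i hi => hrest i (Finset.mem_sdiff.1 hi).1 (Finset.mem_sdiff.1 hi).2)
        (by linarith)
      refine ⟨fun i => if i ∈ insert a T then (x₀ i, 0) else ((v i).1, (v i).2 + m),
        fun x y hx hx1 hy hyH => ?_⟩
      by_cases hym : y ≤ m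
      · obtain ⟨i, hi, h1⟩ := hrowcov x y hx hx1 hy hym
        refine ⟨i, hsub hi, ?_⟩
        simp only [if_pos hi]
        exact h1
      · push Not at hym
        obtain ⟨i, hi, h1, h2, h3⟩ := hv x (y - m) hx hx1 (by linarith) (by linarith)
        rw [Finset.mem_sdiff] at hi
        refine ⟨i, hi.1, ?_⟩
        simp only [if_neg hi.2]
        exact ⟨h1, by linarith, by linarith⟩

/-- The case of a rectangle of width one. -/
theorem wide (w h : ι → ℝ) (hw : ∀ i, 0 < w i) (hh : ∀ i, 0 < h i) (hw1 : ∀ i, w i ≤ 1)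
    (hh1 : ∀ i, h i ≤ 1) (i₀ : ι) (hi₀ : w i₀ = 1) (A : ℝ) (hA : HasSum (fun i => w i * h i) A)
    (hA3 : 3 ≤ A) :
    ∃ v : ι → ℝ × ℝ, ∀ x y : ℝ, 0 ≤ x → x ≤ 1 → 0 ≤ y → y ≤ 1 →
      ∃ i, ((v i).1 ≤ x ∧ x ≤ (v i).1 + w i) ∧ (v i).2 ≤ y ∧ y ≤ (v i).2 + h i := by
  classical
  by_cases hH : h i₀ = 1
  · refine ⟨fun _ => (0, 0), fun x y hx hx1 hy hy1 => ⟨i₀, ⟨hx, ?_⟩, hy, ?_⟩⟩
    · simpa [hi₀] using hx1
    · simpa [hH] using hy1
  · have hlt : h i₀ < 1 := lt_of_le_of_ne (hh1 i₀) hH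
    have hpos := hh i₀
    obtain ⟨t, ht⟩ := ((hA.eventually (lt_mem_nhds (show A - h i₀ < A by linarith))).exists)
    have hs : (∑ i ∈ t, w i * h i) - h i₀ ≤ ∑ i ∈ t.erase i₀, w i * h i := by
      by_cases hit : i₀ ∈ t
      · rw [← Finset.add_sum_erase t _ hit, hi₀]
        linarith
      · rw [Finset.erase_eq_of_notMem hit]
        linarith
    obtain ⟨v, hv⟩ := rows w h hw hh hw1 _ (t.erase i₀) le_rfl 1 (1 - h i₀) zero_le_one
      (by linarith) (fun i _ => hh1 i) (by linarith)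
    refine ⟨fun i => if i = i₀ then (0, 1 - h i₀) else v i, fun x y hx hx1 hy hy1 => ?_⟩
    by_cases hy2 : y ≤ 1 - h i₀
    · obtain ⟨i, hi, h1⟩ := hv x y hx hx1 hy hy2
      refine ⟨i, ?_⟩
      simp only [if_neg (Finset.ne_of_mem_erase hi)]
      exact h1
    · refine ⟨i₀, ?_⟩
      push Not at hy2
      simp only [if_true, hi₀]
      exact ⟨⟨hx, by linarith⟩, hy2.le, by linarith⟩

/-- **Moser's covering problem.** Let `(w i) × (h i)` be a finite or countably infinite family of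
axis-parallel rectangles with sides at most `1`, one of the sides being equal to `1`, of total area
`A ≥ 3`. Then suitable translates of the rectangles cover the unit square. -/
theorem result {ι : Type*} [Countable ι] (w h : ι → ℝ) (hpos : ∀ i, 0 < w i ∧ 0 < h i)
    (hle : ∀ i, w i ≤ 1 ∧ h i ≤ 1) (hmax : ∃ i, w i = 1 ∨ h i = 1) (A : ℝ)
    (hA : HasSum (fun i => w i * h i) A) (hA3 : 3 ≤ A) :
    ∃ v : ι → ℝ × ℝ, Icc (0 : ℝ) 1 ×ˢ Icc (0 : ℝ) 1 ⊆
      ⋃ i, (fun p => p + v i) '' (Icc (0 : ℝ) (w i) ×ˢ Icc (0 : ℝ) (h i)) := by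
  have key : ∃ v : ι → ℝ × ℝ, ∀ x y : ℝ, 0 ≤ x → x ≤ 1 → 0 ≤ y → y ≤ 1 →
      ∃ i, ((v i).1 ≤ x ∧ x ≤ (v i).1 + w i) ∧ (v i).2 ≤ y ∧ y ≤ (v i).2 + h i := by
    obtain ⟨i₀, h0 | h0⟩ := hmax
    · exact wide w h (fun i => (hpos i).1) (fun i => (hpos i).2) (fun i => (hle i).1)
        (fun i => (hle i).2) i₀ h0 A hA hA3
    · obtain ⟨v, hv⟩ := wide h w (fun i => (hpos i).2) (fun i => (hpos i).1) (fun i => (hle i).2)
        (fun i => (hle i).1) i₀ h0 A (by simpa only [mul_comm] using hA) hA3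
      refine ⟨fun i => ((v i).2, (v i).1), fun x y hx hx1 hy hy1 => ?_⟩
      obtain ⟨i, h1, h2⟩ := hv y x hy hy1 hx hx1
      exact ⟨i, h2, h1⟩
  obtain ⟨v, hv⟩ := key
  refine ⟨v, ?_⟩
  rintro ⟨x, y⟩ ⟨⟨hx, hx1⟩, hy, hy1⟩
  obtain ⟨i, ⟨h1, h2⟩, h3, h4⟩ := hv x y hx hx1 hy hy1
  refine mem_iUnion.2 ⟨i, (x - (v i).1, y - (v i).2), ⟨⟨?_, ?_⟩, ?_, ?_⟩, ?_⟩
  · change 0 ≤ x - (v i).1; linarith
  · change x - (v i).1 ≤ w i; linarith
  · change 0 ≤ y - (v i).2; linarith
  · change y - (v i).2 ≤ h i; linarith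
  · ext <;> simp

end Pool.Agent.Results.MP_6800d9_co.AreaThreeCovers
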